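import Pool.Agent.L0h4.T4.EulC
import Pool.Agent.L0h4.T4.Vn
import Pool.Agent.L0h86.F4.Cor

/-!
# The curves `y² = x³ - 8 m³`, `m` odd: statements

`psi6 J * c8I (chr8 m) J * XD m J` is the Hecke character. The criterion is a determinant over the
field with four elements with one more index, the prime `-2`.
-/

set_option autoImplicit false
set_option linter.unusedSectionVars false

open Filter
open scoped Topology PeriodPair

namespace Pool.Agent.L0h86.F5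

open H667R3 Pool.Agent.W192.HK Pool.Agent.TH936.CM
open Pool.Agent.TH936.PU hiding pf
open Pool.Agent.Y696 Pool.Agent.Y715.T.Lat
open Pool.Agent.L0h86.F1 Pool.Agent.L0h86.F3 Pool.Agent.L0h4.T4
open Pool.Agent.Y698 (tam MinimalAt)
open Pool.Agent.Y698.SG (lg ix tnum)
open NumberField IsDedekindDomain WithZero MeasureTheory WeierstrassCurve
open Pool.Agent.TH841.NF.D (Sha)

/-! ### the criterion -/

section
variable {ι : Type} [DecidableEq ι]

/-- the symbol of `-2` -/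
noncomputable def e2 (π : ι → eis) (i : ι) : ZMod 2 := lg (sy (π i) (-2))

/-- the row sums -/
noncomputable def cB (π : ι → eis) (t : ZMod 2) : Option ι → F4
  | some i => bt (π i)
  | none => F4.of t

/-- the entries -/
noncomputable def rB (π : ι → eis) (t : ZMod 2) : Option ι → Option ι → F4
  | some i, some j => F4.of (mm π i j)
  | some i, none => F4.of (e2 π i + t * F4.tr (bt (π i)))
  | none, some j => F4.of (e2 π j)
  | none, none => 0

/-- the bordered determinant; `t = 1` if `m ≡ 1` modulo four and `t = 0` if `m ≡ 3` -/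
noncomputable def g8 (π : ι → eis) (t : ZMod 2) (S : Finset ι) : F4 :=
  gk (cB π t) (rB π t) (Finset.insertNone S)

end

/-- `1` if `m ≡ 1` modulo four -/
def tm (m : ℕ) : ZMod 2 := if m % 4 = 1 then 1 else 0

/-- **the criterion** -/
def Cr8 (Q P : Finset ℕ) (ϖ : ℕ → eis) (m : ℕ) : Prop := g8 (pf Q ϖ) (tm m) (ix Q P) ≠ 0

/-! ### the function -/

/-- the division point of order `8√-3` -/
noncomputable def P2 (Ω : ℂ) : ℂ := Ω / ((8 * la : eis) : ℂ)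

/-- the weighted sum over the points of order four; `s = -1` for `χ₈'(N)` and `s = 1` for `χ₈(N)`. It is
the sum over `t` modulo four of `χ(N(1 + 2√-3 t)) Ev (z + Ω t / 4)` -/
noncomputable def G2 (s Ω z : ℂ) : ℂ :=
  G1 Ω z - G1 Ω (z + Ω / 4) + s * (G1 Ω (z + Ω * om / 4) + G1 Ω (z + Ω * (1 + om) / 4))

/-- the function -/
noncomputable def F2v (s Ω z : ℂ) : ℂ := G2 s Ω (P2 Ω + z)

/-- `(℘'(z - Ω / √-3) - 1) / 2` -/
noncomputable def Yv (L : PeriodPair) (Ω z : ℂ) : ℂ := (℘'[L] (z - Ω / (la : ℂ)) - 1) / 2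

/-- the sign `s` of the sum for `m` -/
noncomputable def sm (m : ℕ) : ℂ := if m % 4 = 1 then -1 else 1

/-- C1: the averages over `1, ω, ω²` at the points of odd order; `κ = 1` for `s = -1`, `κ = 0` for
`s = 1` -/
def S_EV8 : Prop := ∀ {Γ : Type} [LinearOrderedCommGroupWithZero Γ] (v : Valuation ℂ Γ), v 2 < 1 →
  ∀ (L : PeriodPair) (Ω : ℂ), Cur L Ω → ∀ s κ : ℂ, (s = -1 ∧ κ = 1 ∨ s = 1 ∧ κ = 0) →
    ∃ θ : ℂ, v θ ^ 6 = v 2 ^ 13 ∧ ∀ n : eis, n ≠ 0 → IsCoprime (2 : eis) n → N1 n → ∀ x : eis,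
      v ((F2v s Ω (Ω * x / n) + F2v s Ω (om * (Ω * x / n)) + F2v s Ω (om ^ 2 * (Ω * x / n))) / θ -
        (κ + (Yv L Ω (Ω * x / n) + Yv L Ω (-2 * (Ω * x / n))) ^ 2)) < 1

/-- C2: the values of the `L`-series -/
def S_VALC : Prop := ∀ (Q P : Finset ℕ) (ϖ : ℕ → eis) (m : ℕ), Dt Q P ϖ → m = ∏ q ∈ Q ∪ P, q →
  (Q ∪ P).Nonempty → ∃ F : ℂ → ℂ, Differentiable ℂ F ∧
    (∀ z : ℂ, 3 / 2 < z.re →
      HasSum (fun J : Ideal eis => psi6 J * c8I (chr8 m) J * XD m J * (nm J : ℂ) ^ (-z)) (F z)) ∧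
    ∀ {Γ : Type} [LinearOrderedCommGroupWithZero Γ] (v : Valuation ℂ Γ), v 2 < 1 →
    ∀ (L : PeriodPair) (Ω : ℂ), Cur L Ω → ∃ s : ℂ, R4 v s (g8 (pf Q ϖ) (tm m) (ix Q P)) ∧
      v ((starRingEnd ℂ) (F 1) / Ω) ^ 6 * v 2 ^ 5 = (v 2 ^ (ix Q P).card * v s) ^ 6

/-! ### the arithmetic of the curve -/

/-- C3: the torsion -/
def S_TORC : Prop := ∀ m : ℕ, m ≠ 0 → ∃ k : ℕ, Odd k ∧ tnum (WC ℚ m) = 2 * k

/-- C4: the Tamagawa numbers -/
def S_TAMC : Prop := ∀ m : ℕ, AdmC m → ∏ᶠ v : HeightOneSpectrum (𝓞 ℚ), tam (WC ℚ m) v =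
  4 * 2 ^ ((M2 m).card + 2 * (M1 m).card)

/-- C5: the model is minimal -/
def S_MINC : Prop := ∀ m : ℕ, AdmC m → ∀ v : HeightOneSpectrum (𝓞 ℚ), MinimalAt (WC ℚ m) v

/-- the system over the field with two elements, `ε = 0` if the product of the primes is `m` and `1` if
it is `-m` -/
def Sys8 {ι : Type} [DecidableEq ι] (S : Finset ι) (c : ι → ι) (b : ι → F4) (r : ι → ι → ZMod 2)
    (e : ι → ZMod 2) (ε t : ZMod 2) : Prop :=
  ∀ (x : ι → ZMod 2) (a : ZMod 2), (∀ j ∈ S, ∑ i ∈ S.erase j, r i j * x i +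
      (∑ i ∈ S.erase j, r i j + e j + (1 + ε) * F4.tr (b j) + F4.tr (F4.w * b j)) * x j +
      F4.tr (b j) * x (c j) + e j * a = 0) →
    ∑ i ∈ S, F4.tr (F4.w * b i) * x i + t * a = 0 → (∀ i ∈ S, x i = 0) ∧ a = 0

/-- C6: the bordered determinant and the system -/
def S_LINC : Prop := ∀ (ι : Type) [DecidableEq ι] (S : Finset ι) (c : ι → ι) (b : ι → F4)
  (r : ι → ι → ZMod 2) (e : ι → ZMod 2) (ε t : ZMod 2), (∀ i ∈ S, c i ∈ S) →
  (∀ i ∈ S, c (c i) = i) → (∀ i ∈ S, b (c i) = F4.cj (b i)) →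
  (∀ i ∈ S, ∀ j ∈ S, i ≠ j → r (c i) (c j) = r i j) →
  (∀ i ∈ S, ∀ j ∈ S, i ≠ j → r i j + r j i = F4.tr (b i * b j)) →
  (∀ i ∈ S, e (c i) = e i) → (∀ i ∈ S, c i = i → e i = 0) →
  ∑ i ∈ S, b i = F4.of (ε + 1 + t) →
  (gk (fun o : Option ι => match o with
      | some i => b i
      | none => F4.of t)
    (fun o o' : Option ι => match o, o' with
      | some i, some j => F4.of (r i j)
      | some i, none => F4.of (e i + t * F4.tr (b i))
      | none, some j => F4.of (e j)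
      | none, none => 0) (Finset.insertNone S) ≠ 0 ↔ Sys8 S c b r e ε t)

/-- C7: the descent -/
def S_DESC : Prop := ∀ (Q P : Finset ℕ) (ϖ : ℕ → eis) (m : ℕ), Dt Q P ϖ → m = ∏ q ∈ Q ∪ P, q →
  Cr8 Q P ϖ m → Finite (WC ℚ m).toAffine.Point ∧
    ∀ (x : Sha (WC ℚ m)) (k : ℕ), 2 ^ k • x = 0 → x = 0

/-- C8: the converse -/
def S_CNVC : Prop := ∀ (Q P : Finset ℕ) (ϖ : ℕ → eis) (m : ℕ), Dt Q P ϖ → m = ∏ q ∈ Q ∪ P, q →
  ¬ Cr8 Q P ϖ m → Finite (WC ℚ m).toAffine.Point → ∃ y : Sha (WC ℚ m), y ≠ 0 ∧ y + y = 0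

end Pool.Agent.L0h86.F5
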