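import Pool.Agent.L0h86.F5.Def

/-!
# The value of the `L`-function of `y² = x³ - 8 m³` modulo the primes above two
-/

set_option autoImplicit false
set_option linter.unusedSectionVars false

open Filter MeasureTheory
open scoped Topology PeriodPair

namespace Pool.Agent.L0h86.F5

open H667R3 Pool.Agent.W192.HK Pool.Agent.TH936.CM
open Pool.Agent.TH936.PU hiding pf
open Pool.Agent.Y696 Pool.Agent.Y715.T.Lat
open Pool.Agent.Y698 (conj_val v_oddI tam MinimalAt)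
open Pool.Agent.Y698.SG (ix card_ix tnum)
open Pool.Agent.L0h86.F1 Pool.Agent.L0h86.F3 Pool.Agent.L0h86.F4
open Pool.Agent.L0h4.T4
open Pool.Agent.TH841.NF.D (Sha)
open NumberField IsDedekindDomain WithZero WeierstrassCurve
open Pool.Agent.L0h23.EV (int_all)

/-! ### the period -/

/-- the cubic polynomial `4 x³ + b₂ x² + 2 b₄ x + b₆` of the equation `y² = x³ - 8 m³` -/
noncomputable def psC (m : ℕ) (x : ℝ) : ℝ := 4 * x ^ 3 - 32 * (m : ℝ) ^ 3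

/-- **the real period integral** -/
theorem real_periodC {m : ℕ} (hm : 0 < m) :
    Real.sqrt 2 * (∫ x in {x : ℝ | 0 < psC m x}, 2 / Real.sqrt (psC m x)) =
      ∫ x in {x : ℝ | 0 < psN m x}, 2 / Real.sqrt (psN m x) := by
  have hm0 : (0 : ℝ) < m := by exact_mod_cast hm
  have e1 : (∫ x in {x : ℝ | 0 < psC m x}, 2 / Real.sqrt (psC m x)) =
      PA (-4) / Real.sqrt (2 * m) := by
    rw [int_all (psC m), ← PA_scale (by positivity)]
    unfold PA psC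
    congr 1
    funext x
    congr 3
    ring
  have e2 : (∫ x in {x : ℝ | 0 < psN m x}, 2 / Real.sqrt (psN m x)) = PA (-4) / Real.sqrt m := by
    rw [int_all (psN m), ← PA_scale hm0]
    unfold PA psN
    congr 1
    funext x
    congr 3
    ring
  have h2 : Real.sqrt 2 ≠ 0 := by positivity
  rw [e1, e2, Real.sqrt_mul (by norm_num)]
  field_simp

section
variable {Γ : Type} [LinearOrderedCommGroupWithZero Γ] {v : Valuation ℂ Γ} {L : PeriodPair} {Ω : ℂ}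

/-- the valuation of the real period -/
theorem v_periodC (t2 : v 2 < 1) (hC : Cur L Ω) {m : ℕ} (hm : m % 2 = 1) :
    v ((∫ x in {x : ℝ | 0 < psC m x}, 2 / Real.sqrt (psC m x) : ℝ) : ℂ) ^ 6 * v 2 ^ 5 =
      v Ω ^ 6 := by
  have h1 := v_periodN t2 hC hm
  rw [← real_periodC (by omega)] at h1
  push_cast at h1
  rw [map_mul] at h1
  have hs : v ((Real.sqrt 2 : ℝ) : ℂ) ^ 2 = v 2 := by
    rw [← map_pow, ← Complex.ofReal_pow, Real.sq_sqrt (by norm_num)]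
    norm_num
  have hc := v_c4 (v := v)
  have h20 : v 2 ≠ 0 := (v.ne_zero_iff).2 two_ne_zero
  set P := v ((∫ x in {x : ℝ | 0 < psC m x}, 2 / Real.sqrt (psC m x) : ℝ) : ℂ)
  set t := v ((Real.sqrt 2 : ℝ) : ℂ)
  set c := v ((c4 : ℝ) : ℂ)
  have h2 : P ^ 6 * v 2 ^ 5 * v 2 ^ 4 = v Ω ^ 6 * v 2 ^ 4 := by
    calc P ^ 6 * v 2 ^ 5 * v 2 ^ 4 = P ^ 6 * (t ^ 2) ^ 3 * v 2 ^ 6 := by
          rw [hs, mul_assoc, mul_assoc, ← pow_add, ← pow_add]
      _ = (t * P * v 2) ^ 6 := by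
          simp only [mul_pow, ← pow_mul]
          ac_rfl
      _ = (c * v Ω) ^ 6 := by rw [h1]
      _ = v Ω ^ 6 * (c ^ 3) ^ 2 := by
          simp only [mul_pow, ← pow_mul]
          ac_rfl
      _ = v Ω ^ 6 * v 2 ^ 4 := by rw [hc, ← pow_mul]
  exact mul_right_cancel₀ (pow_ne_zero 4 h20) h2

/-- the quotient of the two sides of the formula, without the order of `Ш` -/
noncomputable def quoC (m : ℕ) (z : ℂ) : ℂ :=
  z * (tnum (WC ℚ m) : ℂ) ^ 2 /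
    (((∫ x in {x : ℝ | 0 < psC m x}, 2 / Real.sqrt (psC m x) : ℝ) : ℂ) *
      ((∏ᶠ v : HeightOneSpectrum (𝓞 ℚ), tam (WC ℚ m) v : ℕ) : ℂ))

/-- the valuation of the quotient -/
theorem v_quoC (hTo : S_TORC) (hTa : S_TAMC) {m : ℕ} (h : AdmC m) (t2 : v 2 < 1) (hC : Cur L Ω)
    {z s : ℂ} (hz : v (z / Ω) ^ 6 * v 2 ^ 5 = (v 2 ^ (ix (M2 m) (M1 m)).card * v s) ^ 6) :
    v (quoC m z) = v s := by
  have hm2 := h.m2
  have hΩ : v Ω ≠ 0 := (v.ne_zero_iff).2 hC.lat.ne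
  have h20 : v 2 ≠ 0 := (v.ne_zero_iff).2 two_ne_zero
  obtain ⟨k, hk, hcard⟩ := hTo m h.sf.ne_zero
  have k4 : v (tnum (WC ℚ m) : ℂ) = v 2 := by
    rw [hcard]
    push_cast
    rw [map_mul]
    have := v_oddI v t2 (m := (k : ℤ)) (by exact_mod_cast hk)
    rw [Int.cast_natCast] at this
    rw [this, mul_one]
  have k6 : v (((∏ᶠ v : HeightOneSpectrum (𝓞 ℚ), tam (WC ℚ m) v : ℕ)) : ℂ) =
      v 2 ^ 2 * v 2 ^ (ix (M2 m) (M1 m)).card := by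
    rw [hTa m h, card_ix (disM m)]
    push_cast
    have h4 : (4 : ℂ) = 2 ^ 2 := by norm_num
    rw [h4, map_mul, map_pow, map_pow]
  have k1 := v_periodC t2 hC hm2
  have hP : v ((∫ x in {x : ℝ | 0 < psC m x}, 2 / Real.sqrt (psC m x) : ℝ) : ℂ) ≠ 0 := by
    intro h0
    rw [h0, zero_pow (by norm_num), zero_mul] at k1
    exact pow_ne_zero 6 hΩ k1.symm
  rw [map_div₀] at hz
  unfold quoC
  rw [map_div₀, map_mul, map_mul, map_pow, k4, k6]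
  set n := (ix (M2 m) (M1 m)).card
  set P := v ((∫ x in {x : ℝ | 0 < psC m x}, 2 / Real.sqrt (psC m x) : ℝ) : ℂ)
  have hn : v 2 ^ n ≠ 0 := pow_ne_zero _ h20
  have e1 : v z * v 2 ^ 2 / (P * (v 2 ^ 2 * v 2 ^ n)) = v z / (P * v 2 ^ n) := by
    rw [div_eq_div_iff (mul_ne_zero hP (mul_ne_zero (pow_ne_zero 2 h20) hn)) (mul_ne_zero hP hn)]
    ac_rfl
  rw [e1]
  apply (pow_left_inj₀ zero_le zero_le (show (6 : ℕ) ≠ 0 by norm_num)).1
  rw [div_pow, div_eq_iff (pow_ne_zero 6 (mul_ne_zero hP hn))]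
  have h5 : v 2 ^ 5 ≠ 0 := pow_ne_zero 5 h20
  apply mul_right_cancel₀ h5
  rw [div_pow, div_mul_eq_mul_div, div_eq_iff (pow_ne_zero 6 hΩ)] at hz
  rw [hz, ← k1]
  simp only [mul_pow, mul_comm, mul_left_comm, mul_assoc]

end

/-! ### the parameters -/

lemma admC_odd {m : ℕ} (h : AdmC m) {p : ℕ} (hp : p ∈ m.primeFactors) : p % 2 = 1 := by
  have h1 := Nat.dvd_of_mem_primeFactors hp
  have h2 := h.m2
  by_contra h3
  have h4 : 2 ∣ p := by omega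
  have h5 := h4.trans h1
  omega

lemma admC_q {m : ℕ} (h : AdmC m) : ∀ q ∈ M2 m, InQ q := fun _ hq =>
  ⟨Nat.prime_of_mem_primeFactors (Finset.mem_filter.1 hq).1, (admC_odd h) (Finset.mem_filter.1 hq).1,
    (Finset.mem_filter.1 hq).2⟩

lemma admC_p {m : ℕ} (_h : AdmC m) : ∀ p ∈ M1 m, SpQ p := fun _ hp =>
  ⟨Nat.prime_of_mem_primeFactors (Finset.mem_filter.1 hp).1, (Finset.mem_filter.1 hp).2⟩

lemma admC_union {m : ℕ} (h : AdmC m) : M2 m ∪ M1 m = m.primeFactors := by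
  ext p
  unfold M1 M2
  rw [Finset.mem_union, Finset.mem_filter, Finset.mem_filter]
  constructor
  · rintro (h1 | h1)
    · exact h1.1
    · exact h1.1
  · intro hp
    have hpp := Nat.prime_of_mem_primeFactors hp
    have h3 : ¬ 3 ∣ p := by
      intro hc
      have : 3 = p := (Nat.prime_dvd_prime_iff_eq Nat.prime_three hpp).1 hc
      exact h.n3 (this ▸ Nat.dvd_of_mem_primeFactors hp)
    have h4 : p % 3 = 2 ∨ p % 3 = 1 := by omega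
    rcases h4 with h4 | h4
    · exact Or.inl ⟨hp, h4⟩
    · exact Or.inr ⟨hp, h4⟩

lemma admC_prod {m : ℕ} (h : AdmC m) : m = ∏ q ∈ M2 m ∪ M1 m, q := by
  rw [(admC_union h), Nat.prod_primeFactors_of_squarefree h.sf]

lemma admC_ne {m : ℕ} (h : AdmC m) (h1 : m ≠ 1) : (M2 m ∪ M1 m).Nonempty := by
  rw [(admC_union h)]
  exact Nat.nonempty_primeFactors.2 (by
    have := h.sf.ne_zero
    omega)

/-- a choice of the generators exists -/
lemma admC_exists_dt {m : ℕ} (h : AdmC m) : ∃ ϖ : ℕ → eis, Dt (M2 m) (M1 m) ϖ :=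
  Pool.Agent.L0h80.F3.exists_Dt (admC_q h) (admC_p h)

/-! ### the theorem -/

/-- **the formula modulo the primes above two** -/
theorem levelC (hV : S_VALC) (hTo : S_TORC) (hTa : S_TAMC) {m : ℕ} (h : AdmC m)
    (h1 : m ≠ 1) {ϖ : ℕ → eis} (hd : Dt (M2 m) (M1 m) ϖ) :
    ∃ Λ : ℂ → ℂ, Differentiable ℂ Λ ∧ (∀ s : ℂ, 2 < s.re → Λ s = (WC ℚ m).LSeries s) ∧
      ∀ (Γ : Type) [LinearOrderedCommGroupWithZero Γ] (v : Valuation ℂ Γ), v 2 < 1 →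
        v (quoC m (Λ 1)) ≤ 1 ∧ (v (quoC m (Λ 1)) = 1 ↔ Cr8 (M2 m) (M1 m) ϖ m) := by
  obtain ⟨F, hF, hsum, hval⟩ := hV _ _ ϖ m hd (admC_prod h) ((admC_ne h) h1)
  have hser := (t_DEURC m h F hsum).2
  have hreal : (starRingEnd ℂ) (F 1) = F 1 := conj_val hF (fun k => (WC ℚ m).LFunction k) hser
  refine ⟨F, hF, hser, fun Γ _ v hv => ?_⟩
  obtain ⟨Ω, hΩ, hC⟩ := exists_cur
  obtain ⟨s, hs, hvs⟩ := hval v hv _ Ω hC
  rw [hreal] at hvs
  have key := v_quoC hTo hTa h hv hC hvs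
  rw [key]
  exact ⟨hs.le, hs.unit_iff hv⟩

/-- **the theorem for `-2 m`** -/
theorem coreC_of (hV : S_VALC) (hTo : S_TORC) (hTa : S_TAMC) (hMi : S_MINC)
    (hDe : S_DESC) {m : ℕ} (h : AdmC m) (h1 : m ≠ 1) {ϖ : ℕ → eis} (hd : Dt (M2 m) (M1 m) ϖ) :
    (∀ v : HeightOneSpectrum (𝓞 ℚ), MinimalAt (WC ℚ m) v) ∧
    (∃ t : ℕ, Odd t ∧ tnum (WC ℚ m) = 2 * t) ∧
    ∏ᶠ v : HeightOneSpectrum (𝓞 ℚ), tam (WC ℚ m) v =
      4 * 2 ^ ((M2 m).card + 2 * (M1 m).card) ∧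
    (Cr8 (M2 m) (M1 m) ϖ m → Finite (WC ℚ m).toAffine.Point ∧
      ∀ (n : ℕ) (x : Sha (WC ℚ m)), 2 ^ n • x = 0 → x = 0) ∧
    ∃ Λ : ℂ → ℂ, Differentiable ℂ Λ ∧ (∀ s : ℂ, 2 < s.re → Λ s = (WC ℚ m).LSeries s) ∧
      ∀ (Γ : Type) [LinearOrderedCommGroupWithZero Γ] (v : Valuation ℂ Γ), v 2 < 1 →
        v (quoC m (Λ 1)) ≤ 1 ∧ (v (quoC m (Λ 1)) = 1 ↔ Cr8 (M2 m) (M1 m) ϖ m) := by
  refine ⟨hMi m h, hTo m h.sf.ne_zero, hTa m h, fun hc => ?_, levelC hV hTo hTa h h1 hd⟩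
  obtain ⟨k1, k2⟩ := hDe (M2 m) (M1 m) ϖ m hd (admC_prod h) hc
  exact ⟨k1, fun n x hx => k2 x n hx⟩

end Pool.Agent.L0h86.F5
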