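import Pool.Agent.L0h86.F5.E1b

/-!
# The averages at the points of odd order
-/

set_option autoImplicit false
set_option linter.unusedSectionVars false

open Filter
open scoped Topology PeriodPair

namespace Pool.Agent.L0h86.F5

open H667R3 Pool.Agent.W192.HK Pool.Agent.TH936.CM
open Pool.Agent.TH936.PU hiding pf
open Pool.Agent.Y696 Pool.Agent.Y715.T.Lat
open Pool.Agent.Y715.T.Three (lam lam_ne' lam_sq)
open Pool.Agent.L0h86.F3 Pool.Agent.L0h4.T4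
open Pool.Agent.L0h75.F5 (ff E2a E2b E3)

variable {L : PeriodPair} {Ω : ℂ}

lemma Ks_per (hL : IsLat L eis Ω) {R V W : ℂ} (h : W - V ∈ L.lattice) : Ks Ω R W = Ks Ω R V := by
  unfold Ks
  rw [G1_per hL (z := V + R) (w := W + R) (by convert h using 1; ring),
    G1_per hL (z := V + om * R) (w := W + om * R) (by convert h using 1; ring),
    G1_per hL (z := V + om ^ 2 * R) (w := W + om ^ 2 * R) (by convert h using 1; ring)]

lemma Ks_s1 (hL : IsLat L eis Ω) (R V : ℂ) : Ks Ω R (V + Ω / 2) = Ks Ω R V := by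
  unfold Ks
  have e : ∀ c : ℂ, V + Ω / 2 + c = V + c + Ω / 2 := fun c => by ring
  rw [e, e, e, G1_s1 hL, G1_s1 hL, G1_s1 hL]

lemma Ks_s2 (hL : IsLat L eis Ω) (R V : ℂ) : Ks Ω R (V + Ω * om / 2) = -Ks Ω R V := by
  unfold Ks
  have e : ∀ c : ℂ, V + Ω * om / 2 + c = V + c + Ω * om / 2 := fun c => by ring
  rw [e, e, e, G1_s2 hL, G1_s2 hL, G1_s2 hL]
  ring

lemma G2_per (hL : IsLat L eis Ω) {s z w : ℂ} (h : w - z ∈ L.lattice) :
    G2 s Ω w = G2 s Ω z := by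
  unfold G2
  rw [G1_per hL h, G1_per hL (z := z + Ω / 4) (w := w + Ω / 4) (by convert h using 1; ring),
    G1_per hL (z := z + Ω * om / 4) (w := w + Ω * om / 4) (by convert h using 1; ring),
    G1_per hL (z := z + Ω * (1 + om) / 4) (w := w + Ω * (1 + om) / 4)
      (by convert h using 1; ring)]

lemma la_inv : (1 : ℂ) / (la : ℂ) = -(1 + 2 * om) / 3 := by
  have h := coe_ne la_ne
  rw [la_coe'] at h ⊢
  field_simp
  linear_combination 4 * om_sq

lemma P2_eq : P2 Ω = Vr Ω r0 - Ω / (la : ℂ) := by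
  have h : Ω / (la : ℂ) = Ω * (1 / (la : ℂ)) := by ring
  have h2 : P2 Ω = Ω * (1 / (la : ℂ)) / 8 := by
    unfold P2
    push_cast
    rw [eight_coe]
    have := coe_ne la_ne
    field_simp
  rw [h, h2, la_inv]
  unfold Vr
  rw [r0_coe]
  ring

/-- the three-fold sum -/
theorem F2_avg (hL : IsLat L eis Ω) (s z : ℂ) :
    F2v s Ω z + F2v s Ω (om * z) + F2v s Ω (om ^ 2 * z) =
      (Ks Ω (z - Ω / (la : ℂ)) (Vr Ω r0) + Ks Ω (z - Ω / (la : ℂ)) (-Vr Ω r0)) +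
        s * (Ks Ω (z - Ω / (la : ℂ)) (Vr Ω r1) + Ks Ω (z - Ω / (la : ℂ)) (-Vr Ω r1)) := by
  set R := z - Ω / (la : ℂ) with hR
  set V := Vr Ω r0 with hV
  have f0 : F2v s Ω z = G2 s Ω (V + R) := by
    unfold F2v
    rw [P2_eq, hR]
    congr 1
    ring
  have f1 : F2v s Ω (om * z) = G2 s Ω (V + om * R) := by
    unfold F2v
    apply G2_per hL
    have h1 := hL.mem_mul (-omr ^ 2)
    convert h1 using 1
    rw [P2_eq, hR]
    push_cast
    rw [omr_coe]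
    have h : Ω / (la : ℂ) = Ω * (1 / (la : ℂ)) := by ring
    rw [h, la_inv]
    linear_combination (Ω / 3) * om_sq
  have f2 : F2v s Ω (om ^ 2 * z) = G2 s Ω (V + om ^ 2 * R) := by
    unfold F2v
    apply G2_per hL
    have h1 := hL.mem_mul omr
    convert h1 using 1
    rw [P2_eq, hR]
    rw [omr_coe]
    have h : Ω / (la : ℂ) = Ω * (1 / (la : ℂ)) := by ring
    rw [h, la_inv]
    linear_combination (-Ω * (2 * om - 1) / 3) * om_sq
  have g : G2 s Ω (V + R) + G2 s Ω (V + om * R) + G2 s Ω (V + om ^ 2 * R) =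
      Ks Ω R V - Ks Ω R (V + Ω / 4) + s * (Ks Ω R (V + Ω * om / 4) +
        Ks Ω R (V + Ω * (1 + om) / 4)) := by
    unfold G2 Ks
    have e : ∀ a b c : ℂ, a + b + c = a + c + b := fun a b c => by ring
    rw [e V (Ω / 4), e V (Ω / 4), e V (Ω / 4), e V (Ω * om / 4), e V (Ω * om / 4),
      e V (Ω * om / 4), e V (Ω * (1 + om) / 4), e V (Ω * (1 + om) / 4), e V (Ω * (1 + om) / 4)]
    ring
  have k1 : Ks Ω R (-V) = -Ks Ω R (V + Ω / 4) := by
    rw [← Ks_s1 hL R (V + Ω / 4), ← Ks_s2 hL R (V + Ω / 4 + Ω / 2)]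
    apply Ks_per hL
    have h1 := hL.mem_mul omr
    convert h1 using 1
    rw [hV]
    unfold Vr
    rw [r0_coe, omr_coe]
    ring
  have k2 : V + Ω * om / 4 = Vr Ω r1 := by
    rw [hV]
    unfold Vr r1 r0
    push_cast
    rw [two_coe, omr_coe]
    ring
  have k3 : Ks Ω R (-Vr Ω r1) = Ks Ω R (V + Ω * (1 + om) / 4) := by
    rw [← Ks_s1 hL R (V + Ω * (1 + om) / 4)]
    apply Ks_per hL
    have h1 := hL.mem_mul omr
    convert h1 using 1
    rw [← k2, hV]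
    unfold Vr
    rw [r0_coe, omr_coe]
    ring
  rw [f0, f1, f2, g, k1, k3, k2]
  ring

section
variable {Γ : Type} [LinearOrderedCommGroupWithZero Γ] {v : Valuation ℂ Γ}

/-- the closed form of the three-fold sum -/
theorem F2_closed (hC : Cur L Ω) : ∃ r g : ℂ, r ^ 2 = 3 ∧ g ^ 2 = 6 ∧ ∀ s z : ℂ, ∀ N y : eis,
    N ≠ 0 → IsCoprime (2 : eis) N → z - Ω / (la : ℂ) = Ω * y / N → Ω * y / N ∉ L.lattice →
    F2v s Ω z + F2v s Ω (om * z) + F2v s Ω (om ^ 2 * z) =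
      3 * ℘'[L] (z - Ω / (la : ℂ)) * ℘[L] (Ω / 2) ^ 2 *
        (ff (℘[L] (z - Ω / (la : ℂ)) ^ 3) r g - ff (℘[L] (z - Ω / (la : ℂ)) ^ 3) r (-g) +
          s * (ff (℘[L] (z - Ω / (la : ℂ)) ^ 3) (-r) (-g) -
            ff (℘[L] (z - Ω / (la : ℂ)) ^ 3) (-r) g)) := by
  obtain ⟨r, g, hr, hg, d1, d2, d3, d4⟩ := data8 hC
  have hL := hC.lat
  have he := e_cube hC
  refine ⟨r, g, hr, hg, ?_⟩
  intro s z N y hN hN2 hR hR0
  obtain ⟨q1, q2, -, -⟩ := quad hC r0_cop rfl rfl rfl rfl rfl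
  obtain ⟨t1, t2, -, -⟩ := quad hC r1_cop rfl rfl rfl rfl rfl
  have p0 := pairK hC hN hN2 hR0 r0_cop
  have p1 := pairK hC hN hN2 hR0 r1_cop
  have n : ∀ {r : eis}, IsCoprime (2 : eis) r →
      ℘[L] (Ω * y / N) ^ 3 - ℘[L] (Vr Ω r) ^ 3 ≠ 0 := fun h => (pairV hC hN hN2 hR0 h).1
  rw [F2_avg hL, hR, p0, p1]
  have s1 := phi_sum he d1 q1 (n r0_cop) (n (cop_add (s := 2) r0_cop))
  have s2 := phi_sum he d2 q2 (n (cop_add (s := 2 * omr) r0_cop))
    (n (cop_add (s := 2 * omr ^ 2) r0_cop))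
  have s3 := phi_sum he d3 t1 (n r1_cop) (n (cop_add (s := 2) r1_cop))
  have s4 := phi_sum he d4 t2 (n (cop_add (s := 2 * omr) r1_cop))
    (n (cop_add (s := 2 * omr ^ 2) r1_cop))
  linear_combination (3 * ℘'[L] (Ω * y / N)) * (s1 - s2 + s * (s3 - s4))

lemma v_e3 (hC : Cur L Ω) : v 2 ^ 2 * v (℘[L] (Ω / 2)) ^ 3 = 1 := by
  have := congrArg v (e_cube hC)
  rw [map_mul, map_pow, Valuation.map_neg, map_one] at this
  rw [← this, ← map_pow]
  norm_num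

/-- **the averages at the points of odd order** -/
theorem t_EV8 : S_EV8 := by
  intro Γ _ v t2 L Ω hC s κ hsκ
  obtain ⟨r, g, hr, hg, hcl⟩ := F2_closed hC
  have hL := hC.lat
  have he0 := e_ne hC
  have hv3 := v_three t2
  have h20 : v 2 ≠ 0 := (v.ne_zero_iff).2 two_ne_zero
  have hr0 : r ≠ 0 := by
    rintro rfl
    norm_num at hr
  have hg0 : g ≠ 0 := by
    rintro rfl
    norm_num at hg
  have vr : v r = 1 := by
    have h1 : v r ^ 2 = 1 := by rw [← map_pow, hr, hv3]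
    exact (pow_eq_one_iff_of_nonneg zero_le (by norm_num)).1 h1
  have vg : v g ^ 2 = v 2 := by
    rw [← map_pow, hg]
    have : (6 : ℂ) = 2 * 3 := by norm_num
    rw [this, map_mul, hv3, mul_one]
  have v24 : v 24 = v 2 ^ 3 := by
    have : (24 : ℂ) = 2 ^ 3 * 3 := by norm_num
    rw [this, map_mul, hv3, mul_one, map_pow]
  have ve := v_e3 (v := v) hC
  have key : (v 2 ^ 3 * v g * v (℘[L] (Ω / 2)) ^ 2) ^ 6 = v 2 ^ 13 := by
    calc (v 2 ^ 3 * v g * v (℘[L] (Ω / 2)) ^ 2) ^ 6 =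
        v 2 ^ 10 * (v g ^ 2) ^ 3 * (v 2 ^ 2 * v (℘[L] (Ω / 2)) ^ 3) ^ 4 := by
          simp only [mul_pow, ← pow_mul]
          have : v 2 ^ (3 * 6) = v 2 ^ 10 * v 2 ^ (2 * 4) := by rw [← pow_add]
          rw [this]
          ac_rfl
      _ = v 2 ^ 13 := by rw [ve, one_pow, mul_one, vg, ← pow_add]
  -- the points
  have pts : ∀ n : eis, n ≠ 0 → IsCoprime (2 : eis) n → N1 n → ∀ x : eis,
      ∃ N y : eis, N ≠ 0 ∧ IsCoprime (2 : eis) N ∧
        Ω * x / n - Ω / (la : ℂ) = Ω * y / N ∧ y ∉ sp N := by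
    intro n hn hodd hn1 x
    refine ⟨la * n, la * x - n, mul_ne_zero la_ne hn, la_odd.mul_right hodd, ?_, ?_⟩
    · have h1 := coe_ne la_ne
      have h2 := coe_ne hn
      push_cast
      field_simp
    · intro h
      rw [Ideal.mem_span_singleton] at h
      have h3 : la ∣ la * x - n := (Dvd.intro _ rfl).trans h
      have h4 : la ∣ n := (dvd_sub_right ⟨x, rfl⟩).1 h3
      exact la_nu (hn1.cop_la.isUnit_of_dvd' dvd_rfl h4)
  have main : ∀ n : eis, n ≠ 0 → IsCoprime (2 : eis) n → N1 n → ∀ x : eis,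
      ∃ Y : ℂ, v Y ≤ 1 ∧ ℘'[L] (Ω * x / n - Ω / (la : ℂ)) = 2 * Y + 1 ∧
        ℘[L] (Ω * x / n - Ω / (la : ℂ)) ^ 3 = Y ^ 2 + Y ∧ Yv L Ω (Ω * x / n) = Y ∧
        v (Yv L Ω (-2 * (Ω * x / n)) - Y ^ 4) < 1 := by
    intro n hn hodd hn1 x
    obtain ⟨N, y, hN, hN2, hR, hy⟩ := pts n hn hodd hn1 x
    have hR0 : Ω * y / N ∉ L.lattice := by rwa [div_mem_iff hL hN]
    have hX := wp_odd hC t2 hN hN2 y hy
    have h2R : 2 * (Ω * y / N) ∉ L.lattice := by
      have h1 : (2 * y : eis) ∉ sp N := by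
        intro h
        apply hy
        rw [Ideal.mem_span_singleton] at h ⊢
        exact hN2.symm.dvd_of_dvd_mul_left h
      have h2 := (div_mem_iff hL hN (2 * y)).not.2 h1
      convert h2 using 2
      push_cast
      rw [two_coe]
      ring
    rw [← hR] at hR0 hX h2R
    have hode := hC.ode hR0
    set R := Ω * x / n - Ω / (la : ℂ) with hRd
    set Y := (℘'[L] R - 1) / 2 with hY
    have hY1 : ℘'[L] R = 2 * Y + 1 := by
      rw [hY]
      ring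
    have hW : Y * (Y + 1) = ℘[L] R ^ 3 := by
      rw [hY1] at hode
      linear_combination hode / 4
    have hYv : v Y ≤ 1 := by
      by_contra hc
      push Not at hc
      have h2 : v (Y + 1) = v Y := by
        have h9 : v 1 < v Y := by
          rw [map_one]
          exact hc
        exact v.map_add_eq_of_lt_left h9
      have h3 := congrArg v hW
      rw [map_mul, h2, map_pow] at h3
      have h4 : 1 < v Y * v Y := one_lt_mul'' hc hc
      rw [h3] at h4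
      exact absurd (pow_le_one' hX 3) (not_le.2 h4)
    refine ⟨Y, hYv, hY1, by linear_combination -hW, rfl, ?_⟩
    have h5 := E3 hC t2 h2R hY1 hYv
    have h6 : Yv L Ω (-2 * (Ω * x / n)) = (℘'[L] (-2 * R) - 1) / 2 := by
      unfold Yv
      congr 2
      apply dwp_per
      have h1 := hL.mem_mul la
      convert h1 using 1
      rw [hRd]
      have h : Ω / (la : ℂ) = Ω * (1 / (la : ℂ)) := by ring
      rw [h, la_inv, la_coe']
      ring
    rw [h6]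
    exact h5
  have sqv : ∀ Y Z : ℂ, v Y ≤ 1 → v (Z - Y ^ 4) < 1 → v ((Y + Z) ^ 2 - (Y ^ 2 + Y ^ 8)) < 1 := by
    intro Y Z hY hZ
    have e : (Y + Z) ^ 2 - (Y ^ 2 + Y ^ 8) =
        (Z - Y ^ 4) * (Z - Y ^ 4 + 2 * Y ^ 4 + 2 * Y) + 2 * Y ^ 5 := by ring
    rw [e]
    have h2 : v (2 * Y ^ 4) < 1 := by
      rw [map_mul, map_pow]
      exact mul_lt_one_of_lt_of_le t2 (pow_le_one' hY 4)
    have h3 : v (2 * Y) < 1 := by
      rw [map_mul]
      exact mul_lt_one_of_lt_of_le t2 hY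
    have h4 : v (2 * Y ^ 5) < 1 := by
      rw [map_mul, map_pow]
      exact mul_lt_one_of_lt_of_le t2 (pow_le_one' hY 5)
    refine v.map_add_lt ?_ h4
    rw [map_mul]
    exact mul_lt_one_of_lt_of_le hZ (v.map_add_lt (v.map_add_lt hZ h2) h3).le
  rcases hsκ with ⟨rfl, rfl⟩ | ⟨rfl, rfl⟩
  · refine ⟨24 * g * ℘[L] (Ω / 2) ^ 2, ?_, ?_⟩
    · rw [map_mul, map_mul, map_pow, v24]
      exact key
    · intro n hn hodd hn1 x
      obtain ⟨N, y, hN, hN2, hR, hy⟩ := pts n hn hodd hn1 x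
      have hR0 : Ω * y / N ∉ L.lattice := by rwa [div_mem_iff hL hN]
      obtain ⟨Y, hYv, hY1, hc, hY2, hY3⟩ := main n hn hodd hn1 x
      rw [hcl (-1) _ N y hN hN2 hR hR0, hY1, hc, hY2]
      have h1 := E2a t2 hYv (c := Y ^ 2 + Y) rfl hr hg
      have h2 := sqv Y _ hYv hY3
      have e1 : 3 * (2 * Y + 1) * ℘[L] (Ω / 2) ^ 2 *
          (ff (Y ^ 2 + Y) r g - ff (Y ^ 2 + Y) r (-g) + -1 * (ff (Y ^ 2 + Y) (-r) (-g) -
            ff (Y ^ 2 + Y) (-r) g)) / (24 * g * ℘[L] (Ω / 2) ^ 2) =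
          (2 * Y + 1) * (ff (Y ^ 2 + Y) r g - ff (Y ^ 2 + Y) r (-g) + ff (Y ^ 2 + Y) (-r) g -
            ff (Y ^ 2 + Y) (-r) (-g)) / (8 * g) := by
        field_simp
        ring
      rw [e1]
      have e2 : ∀ A Z : ℂ, A - (1 + (Y + Z) ^ 2) = (A - (1 + Y ^ 2 + Y ^ 8)) -
          ((Y + Z) ^ 2 - (Y ^ 2 + Y ^ 8)) := fun A Z => by ring
      rw [e2]
      exact v.map_sub_lt h1 h2
  · refine ⟨24 * g * r * ℘[L] (Ω / 2) ^ 2, ?_, ?_⟩
    · rw [map_mul, map_mul, map_mul, map_pow, v24, vr, mul_one]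
      exact key
    · intro n hn hodd hn1 x
      obtain ⟨N, y, hN, hN2, hR, hy⟩ := pts n hn hodd hn1 x
      have hR0 : Ω * y / N ∉ L.lattice := by rwa [div_mem_iff hL hN]
      obtain ⟨Y, hYv, hY1, hc, hY2, hY3⟩ := main n hn hodd hn1 x
      rw [hcl 1 _ N y hN hN2 hR hR0, hY1, hc, hY2]
      have h1 := E2b t2 hYv (c := Y ^ 2 + Y) rfl hr hg
      have h2 := sqv Y _ hYv hY3
      have e1 : 3 * (2 * Y + 1) * ℘[L] (Ω / 2) ^ 2 *
          (ff (Y ^ 2 + Y) r g - ff (Y ^ 2 + Y) r (-g) + 1 * (ff (Y ^ 2 + Y) (-r) (-g) -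
            ff (Y ^ 2 + Y) (-r) g)) / (24 * g * r * ℘[L] (Ω / 2) ^ 2) =
          (2 * Y + 1) * (ff (Y ^ 2 + Y) r g - ff (Y ^ 2 + Y) r (-g) - ff (Y ^ 2 + Y) (-r) g +
            ff (Y ^ 2 + Y) (-r) (-g)) / (8 * g * r) := by
        field_simp
        ring
      rw [e1]
      have e2 : ∀ A Z : ℂ, A - (0 + (Y + Z) ^ 2) = (A - (Y ^ 2 + Y ^ 8)) -
          ((Y + Z) ^ 2 - (Y ^ 2 + Y ^ 8)) := fun A Z => by ring
      rw [e2]
      exact v.map_sub_lt h1 h2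

end

end Pool.Agent.L0h86.F5
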