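import Pool.Agent.L0h86.F5.Def
import Pool.Agent.L0h1.F3R.Ev4

/-!
# The weighted sum over the points of order eight: the closed form
-/

set_option autoImplicit false
set_option linter.unusedSectionVars false

open Filter
open scoped Topology PeriodPair

namespace Pool.Agent.L0h86.F5

open H667R3 Pool.Agent.W192.HK Pool.Agent.TH936.CM
open Pool.Agent.TH936.PU hiding pf
open Pool.Agent.Y696 Pool.Agent.Y715.T.Lat
open Pool.Agent.Y715.T.Three (lam lam_ne' lam_sq)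
open Pool.Agent.L0h86.F3 Pool.Agent.L0h4.T4

variable {L : PeriodPair} {Ω : ℂ}

/-! ### translations by the points of order two, and multiplication by `√-3` -/

/-- translation by a point of order two -/
lemma wp_half2 (hC : Cur L Ω) {z h : ℂ} (h0 : h ∉ L.lattice) (h2 : 2 * h ∈ L.lattice)
    (hz : 2 * z ∉ L.lattice) (he : 4 * ℘[L] h ^ 3 = -1) :
    ℘[L] z - ℘[L] h ≠ 0 ∧ (℘[L] (z + h) - ℘[L] h) * (℘[L] z - ℘[L] h) = 3 * ℘[L] h ^ 2 := by
  have h1 : z + h ∉ L.lattice := by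
    intro hh
    apply hz
    have := sub_mem (add_mem hh hh) h2
    convert this using 1
    ring
  have h1' : z - h ∉ L.lattice := by
    intro hh
    apply hz
    have := add_mem (add_mem hh hh) h2
    convert this using 1
    ring
  have hz0 := two_mul_notMem_of L hz
  have hne := wp_sub_ne hz0 h0 h1 h1'
  have hs := wp_sum hz h0 h1 h1'
  have e1 : ℘[L] (z - h) = ℘[L] (z + h) := wp_per (by
    have := neg_mem h2
    convert this using 1
    ring)
  rw [e1, hC.g2, hC.g3] at hs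
  refine ⟨hne, ?_⟩
  set x := ℘[L] z
  set e := ℘[L] h
  set X := ℘[L] (z + h)
  have : (x - e) * ((X - e) * (x - e) - 3 * e ^ 2) = 0 := by
    linear_combination (1 / 2) * hs + (1 / 2) * he
  rcases mul_eq_zero.1 this with h3 | h3
  · exact absurd h3 hne
  · linear_combination h3

/-- multiplication by `√-3` -/
lemma wp_la (hC : Cur L Ω) {z : ℂ} (hz : 2 * z ∉ L.lattice) (h3 : (la : ℂ) * z ∉ L.lattice) :
    ℘[L] z ≠ 0 ∧ ℘[L] ((la : ℂ) * z) * (3 * ℘[L] z ^ 2) = -(℘[L] z ^ 3 + 1) := by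
  have hL := hC.lat
  have hu := omr_unit
  have hu2 := omr_unit.pow 2
  have hz0 := two_mul_notMem_of L hz
  have e1 : ℘[L] (om * z) = om * ℘[L] z := by
    have := wp_unit hL hu z
    rw [omr_coe] at this
    have h4 : (om ^ 2)⁻¹ = om := inv_eq_of_mul_eq_one_right (by linear_combination om_cube)
    rw [this, h4]
  have e2 : ℘[L] (om ^ 2 * z) = om ^ 2 * ℘[L] z := by
    have := wp_unit hL hu2 z
    push_cast at this
    rw [omr_coe] at this
    have h4 : ((om ^ 2) ^ 2)⁻¹ = om ^ 2 :=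
      inv_eq_of_mul_eq_one_right (by linear_combination (om ^ 3 + 1) * om_cube)
    rw [this, h4]
  have n1 : 2 * (om * z) ∉ L.lattice := by
    have := (lat_unit hL hu (2 * z)).not.2 hz
    rw [omr_coe] at this
    have e : 2 * (om * z) = om * (2 * z) := by ring
    rwa [e]
  have n2 : om ^ 2 * z ∉ L.lattice := by
    have := (lat_unit hL hu2 z).not.2 hz0
    push_cast at this
    rwa [omr_coe] at this
  have s1 : om * z + om ^ 2 * z = -z := by linear_combination z * om_sq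
  have s2 : om * z - om ^ 2 * z = (la : ℂ) * z := by
    rw [la_coe, ← om_lam]
    ring
  have n3 : om * z + om ^ 2 * z ∉ L.lattice := by
    rw [s1]
    intro h
    exact hz0 (by simpa using neg_mem h)
  have n4 : om * z - om ^ 2 * z ∉ L.lattice := by rwa [s2]
  have hs := wp_sum n1 n2 n3 n4
  have hne := wp_sub_ne (two_mul_notMem_of L n1) n2 n3 n4
  rw [s1, s2, L.weierstrassP_neg, e1, e2, hC.g2, hC.g3] at hs
  rw [e1, e2] at hne
  set x := ℘[L] z
  set X := ℘[L] ((la : ℂ) * z)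
  have hx : x ≠ 0 := by
    rintro h
    rw [h] at hne
    simp at hne
  refine ⟨hx, ?_⟩
  have k1 : (om * x - om ^ 2 * x) ^ 2 = -3 * x ^ 2 := by
    have : (om - om ^ 2) ^ 2 = -3 := by
      rw [om_lam, pow_two, lam_sq]
    linear_combination x ^ 2 * this
  have k2 : (om * x + om ^ 2 * x) * (2 * (om * x) * (om ^ 2 * x) - 0 / 2) = -2 * x ^ 3 := by
    have o3 := om_cube
    have o2 := om_sq
    linear_combination (2 * x ^ 3 * (om + om ^ 2)) * o3 + (2 * x ^ 3) * o2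
  rw [k1, k2] at hs
  linear_combination -hs

/-! ### points of order eight times odd -/

/-- the sum over the multiples of `R` by the cube roots of unity -/
noncomputable def Hs (Ω R V : ℂ) : ℂ := Ev Ω (V + R) + Ev Ω (V + om * R) + Ev Ω (V + om ^ 2 * R)

/-- the alternating sum -/
noncomputable def Ks (Ω R V : ℂ) : ℂ := G1 Ω (V + R) + G1 Ω (V + om * R) + G1 Ω (V + om ^ 2 * R)

/-- the rational function -/
noncomputable def phi (x a : ℂ) : ℂ := a ^ 2 / (x ^ 3 - a ^ 3)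

/-- the sum over `V` and `-V` -/
lemma pair_Hs (hC : Cur L Ω) {R V : ℂ} (hR : Tor L R) (hV : Tor L V) (hR0 : R ∉ L.lattice)
    (hV0 : V ∉ L.lattice) (h1 : ∀ u : eis, IsUnit u → (u : ℂ) * R + V ∉ L.lattice)
    (h2 : ∀ u : eis, IsUnit u → (u : ℂ) * R - V ∉ L.lattice) :
    ℘[L] R ^ 3 - ℘[L] V ^ 3 ≠ 0 ∧
      Hs Ω R V + Hs Ω R (-V) = 3 * ℘'[L] R * phi (℘[L] R) (℘[L] V) := by
  have hL := hC.lat
  have key : ∀ u w : eis, w * u = 1 → ℘[L] R - (u : ℂ) ^ 2 * ℘[L] V ≠ 0 ∧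
      Ev Ω (V + u * R) + Ev Ω (-V + u * R) = (w : ℂ) * (2 * Ev Ω R) +
        (w : ℂ) ^ 3 * ℘'[L] R / ((w : ℂ) ^ 2 * ℘[L] R - ℘[L] V) ∧
        (w : ℂ) ^ 2 * ℘[L] R - ℘[L] V ≠ 0 := by
    intro u w hwu
    have hu : IsUnit u := IsUnit.of_mul_eq_one w (by rw [mul_comm]; exact hwu)
    have hwu' : (w : ℂ) * u = 1 := by
      have := congrArg (fun t : eis => (t : ℂ)) hwu
      push_cast at this
      exact this
    have hui : (u : ℂ)⁻¹ = w := (eq_inv_of_mul_eq_one_left hwu').symm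
    have n0 : (u : ℂ) * R ∉ L.lattice := by rwa [lat_unit hL hu]
    have hs := Ev_sec hL (hR.mul hL u) hV n0 hV0 (h1 u hu) (h2 u hu)
    have hne := wp_sub_ne n0 hV0 (h1 u hu) (h2 u hu)
    unfold Dd at hs
    rw [wp_unit hL hu, dwp_unit hL hu, Ev_unit hL hu hR, hui] at hs
    rw [wp_unit hL hu] at hne
    have i2 : ((u : ℂ) ^ 2)⁻¹ = (w : ℂ) ^ 2 := by rw [← inv_pow, hui]
    have i3 : ((u : ℂ) ^ 3)⁻¹ = (w : ℂ) ^ 3 := by rw [← inv_pow, hui]
    rw [i2, i3] at hs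
    rw [i2] at hne
    refine ⟨?_, ?_, hne⟩
    · intro h
      apply hne
      linear_combination (w : ℂ) ^ 2 * h + (℘[L] V * ((w : ℂ) * u + 1)) * hwu'
    · have e1 : V + u * R = u * R + V := by ring
      have e2 : -V + u * R = u * R - V := by ring
      rw [e1, e2]
      linear_combination hs
  have o3 := omr_cube
  obtain ⟨k1, f1, g1⟩ := key 1 1 (one_mul 1)
  obtain ⟨k2, f2, g2⟩ := key omr (omr ^ 2) (by rw [← o3]; ring)
  obtain ⟨k3, f3, g3⟩ := key (omr ^ 2) omr (by rw [← o3]; ring)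
  push_cast at k1 k2 k3 f1 f2 f3 g1 g2 g3
  rw [omr_coe] at k2 k3 f2 f3 g2 g3
  simp only [one_pow, one_mul] at k1 f1 g1
  have e4 : (om ^ 2) ^ 2 = om := by linear_combination om * om_cube
  have e6 : (om ^ 2) ^ 3 = 1 := by linear_combination (om ^ 3 + 1) * om_cube
  rw [e4, e6, one_mul] at f2
  rw [e4] at g2
  rw [om_cube, one_mul] at f3
  unfold Hs
  set x := ℘[L] R
  set a := ℘[L] V
  set y := ℘'[L] R
  set E := Ev Ω R
  have hD : (x - a) * (om * x - a) * (om ^ 2 * x - a) = x ^ 3 - a ^ 3 := by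
    have o2 := om_sq
    have o3 := om_cube
    linear_combination (x ^ 3) * o3 + (-x ^ 2 * a * om + x * a ^ 2) * o2
  have hne : x ^ 3 - a ^ 3 ≠ 0 := by
    rw [← hD]
    exact mul_ne_zero (mul_ne_zero g1 g2) g3
  refine ⟨hne, ?_⟩
  have hsum : 1 / (x - a) + 1 / (om * x - a) + 1 / (om ^ 2 * x - a) =
      3 * a ^ 2 / (x ^ 3 - a ^ 3) := by
    rw [← hD]
    have hN : (om * x - a) * (om ^ 2 * x - a) + (x - a) * (om ^ 2 * x - a) +
        (x - a) * (om * x - a) = 3 * a ^ 2 := by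
      linear_combination (x ^ 2) * om_cube + (x ^ 2 - 2 * a * x) * om_sq
    have aux : ∀ p q t : ℂ, p ≠ 0 → q ≠ 0 → t ≠ 0 → 1 / p + 1 / q + 1 / t =
        (q * t + p * t + p * q) / (p * q * t) := by
      intro p q t hp hq ht
      field_simp
    rw [aux _ _ _ g1 g2 g3, hN]
  have hfin : (Ev Ω (V + 1 * R) + Ev Ω (-V + 1 * R)) + (Ev Ω (V + om * R) + Ev Ω (-V + om * R)) +
      (Ev Ω (V + om ^ 2 * R) + Ev Ω (-V + om ^ 2 * R)) =
      y * (1 / (x - a) + 1 / (om * x - a) + 1 / (om ^ 2 * x - a)) := by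
    rw [one_mul, f1, f2, f3]
    linear_combination (2 * E) * om_sq
  unfold phi
  rw [hsum] at hfin
  rw [one_mul] at hfin
  linear_combination hfin

lemma eight_ne : (8 : eis) ≠ 0 := by
  have : (8 : eis) = 2 * 2 * 2 := by norm_num
  rw [this]
  exact mul_ne_zero (mul_ne_zero two_ne two_ne) two_ne

lemma eight_coe : ((8 : eis) : ℂ) = 8 := rfl

/-- the point `Ω r / 8` -/
noncomputable def Vr (Ω : ℂ) (r : eis) : ℂ := Ω * r / 8

lemma Vr_tor (hL : IsLat L eis Ω) (r : eis) : Tor L (Vr Ω r) := by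
  have := Tor.of hL eight_ne r
  rwa [eight_coe] at this

/-- a point of odd order plus a point of order eight -/
lemma nm8 (hL : IsLat L eis Ω) {N y r : eis} (hN : N ≠ 0) (hN2 : IsCoprime (2 : eis) N)
    (hr : IsCoprime (2 : eis) r) : Ω * y / N + Vr Ω r ∉ L.lattice := by
  have e : Ω * y / N + Vr Ω r = Ω * ((8 * y + N * r : eis) : ℂ) / ((8 * N : eis) : ℂ) := by
    unfold Vr
    have hN0 : (N : ℂ) ≠ 0 := coe_ne hN
    push_cast
    rw [eight_coe]
    field_simp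
  rw [e, div_mem_iff hL (mul_ne_zero eight_ne hN), Ideal.mem_span_singleton]
  rintro ⟨b, hb⟩
  have h1 : (2 : eis) ∣ N * r := ⟨4 * (N * b - y), by linear_combination hb⟩
  have h2 : IsCoprime (2 : eis) (N * r) := hN2.mul_right hr
  exact two_nu (h2.isUnit_of_dvd' dvd_rfl h1)

lemma Vr_nm (hL : IsLat L eis Ω) {r : eis} (hr : IsCoprime (2 : eis) r) : Vr Ω r ∉ L.lattice := by
  have := nm8 hL (N := 1) (y := 0) one_ne_zero isCoprime_one_right hr
  convert this using 2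
  push_cast
  ring

lemma nm4 (hL : IsLat L eis Ω) {r : eis} (hr : IsCoprime (2 : eis) r) : Ω * r / 4 ∉ L.lattice := by
  have h4 : (4 : eis) ≠ 0 := by
    have : (4 : eis) = 2 * 2 := by norm_num
    rw [this]
    exact mul_ne_zero two_ne two_ne
  have := div_mem_iff hL h4 r
  rw [four_coe] at this
  rw [this, Ideal.mem_span_singleton]
  rintro ⟨b, hb⟩
  exact two_nu (hr.isUnit_of_dvd' dvd_rfl ⟨2 * b, by linear_combination hb⟩)

lemma nm2 (hL : IsLat L eis Ω) {r : eis} (hr : IsCoprime (2 : eis) r) : Ω * r / 2 ∉ L.lattice := by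
  have := div_mem_iff hL two_ne r
  rw [two_coe] at this
  rw [this, Ideal.mem_span_singleton]
  intro h
  exact two_nu (hr.isUnit_of_dvd' dvd_rfl h)

lemma Vr_two (hL : IsLat L eis Ω) {r : eis} (hr : IsCoprime (2 : eis) r) :
    2 * Vr Ω r ∉ L.lattice := by
  have := nm4 hL hr
  convert this using 2
  unfold Vr
  ring

lemma cop_add {r s : eis} (hr : IsCoprime (2 : eis) r) : IsCoprime (2 : eis) (r + 2 * s) :=
  hr.add_mul_left_right s

section pairs

variable {N y : eis}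

/-- the sum over `V` and `-V` for a point of order eight -/
lemma pairV (hC : Cur L Ω) (hN : N ≠ 0) (hN2 : IsCoprime (2 : eis) N)
    (hR0 : Ω * y / N ∉ L.lattice) {r : eis} (hr : IsCoprime (2 : eis) r) :
    ℘[L] (Ω * y / N) ^ 3 - ℘[L] (Vr Ω r) ^ 3 ≠ 0 ∧
      Hs Ω (Ω * y / N) (Vr Ω r) + Hs Ω (Ω * y / N) (-Vr Ω r) =
        3 * ℘'[L] (Ω * y / N) * phi (℘[L] (Ω * y / N)) (℘[L] (Vr Ω r)) := by
  have hL := hC.lat
  refine pair_Hs hC (Tor.of hL hN y) (Vr_tor hL r) hR0 (Vr_nm hL hr) (fun u _ => ?_)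
    (fun u _ => ?_)
  · have := nm8 hL (y := u * y) hN hN2 hr
    convert this using 2
    push_cast
    ring
  · have := nm8 hL (y := u * y) hN hN2 hr.neg_right
    convert this using 2
    unfold Vr
    push_cast
    ring

lemma Hs_per (hL : IsLat L eis Ω) {R V W : ℂ} (h : W - V ∈ L.lattice) : Hs Ω R W = Hs Ω R V := by
  unfold Hs
  rw [Ev_per hL (z := V + R) (w := W + R) (by convert h using 1; ring),
    Ev_per hL (z := V + om * R) (w := W + om * R) (by convert h using 1; ring),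
    Ev_per hL (z := V + om ^ 2 * R) (w := W + om ^ 2 * R) (by convert h using 1; ring)]

lemma Ks_eq (R V : ℂ) : Ks Ω R V = Hs Ω R V + Hs Ω R (V + Ω / 2) - Hs Ω R (V + Ω * om / 2) -
    Hs Ω R (V + Ω * om ^ 2 / 2) := by
  unfold Ks Hs G1
  have e : ∀ a b c : ℂ, a + b + c = a + c + b := fun a b c => by ring
  rw [e V (Ω / 2) R, e V (Ω / 2) (om * R), e V (Ω / 2) (om ^ 2 * R), e V (Ω * om / 2) R,
    e V (Ω * om / 2) (om * R), e V (Ω * om / 2) (om ^ 2 * R), e V (Ω * om ^ 2 / 2) R,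
    e V (Ω * om ^ 2 / 2) (om * R), e V (Ω * om ^ 2 / 2) (om ^ 2 * R)]
  ring

lemma Ks_neg (hL : IsLat L eis Ω) (R V : ℂ) : Ks Ω R (-V) = Hs Ω R (-V) +
    Hs Ω R (-(V + Ω / 2)) - Hs Ω R (-(V + Ω * om / 2)) - Hs Ω R (-(V + Ω * om ^ 2 / 2)) := by
  rw [Ks_eq, Hs_per hL (V := -(V + Ω / 2)) (W := -V + Ω / 2),
    Hs_per hL (V := -(V + Ω * om / 2)) (W := -V + Ω * om / 2),
    Hs_per hL (V := -(V + Ω * om ^ 2 / 2)) (W := -V + Ω * om ^ 2 / 2)]
  · have := hL.mem_mul (omr ^ 2)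
    push_cast at this
    rw [omr_coe] at this
    convert this using 1
    ring
  · have := hL.mem_mul omr
    rw [omr_coe] at this
    convert this using 1
    ring
  · have := hL.mem_mul 1
    convert this using 1
    push_cast
    ring

/-- the alternating sum over the points of order two -/
theorem pairK (hC : Cur L Ω) (hN : N ≠ 0) (hN2 : IsCoprime (2 : eis) N)
    (hR0 : Ω * y / N ∉ L.lattice) {r : eis} (hr : IsCoprime (2 : eis) r) :
    Ks Ω (Ω * y / N) (Vr Ω r) + Ks Ω (Ω * y / N) (-Vr Ω r) =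
      3 * ℘'[L] (Ω * y / N) * (phi (℘[L] (Ω * y / N)) (℘[L] (Vr Ω r)) +
        phi (℘[L] (Ω * y / N)) (℘[L] (Vr Ω (r + 2 * 2))) -
        phi (℘[L] (Ω * y / N)) (℘[L] (Vr Ω (r + 2 * (2 * omr)))) -
        phi (℘[L] (Ω * y / N)) (℘[L] (Vr Ω (r + 2 * (2 * omr ^ 2))))) := by
  have hL := hC.lat
  have p0 := (pairV hC hN hN2 hR0 hr).2
  have p1 := (pairV hC hN hN2 hR0 (cop_add (s := 2) hr)).2
  have p2 := (pairV hC hN hN2 hR0 (cop_add (s := 2 * omr) hr)).2
  have p3 := (pairV hC hN hN2 hR0 (cop_add (s := 2 * omr ^ 2) hr)).2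
  have e1 : Vr Ω r + Ω / 2 = Vr Ω (r + 2 * 2) := by
    unfold Vr
    push_cast
    rw [two_coe]
    ring
  have e2 : Vr Ω r + Ω * om / 2 = Vr Ω (r + 2 * (2 * omr)) := by
    unfold Vr
    push_cast
    rw [two_coe, omr_coe]
    ring
  have e3 : Vr Ω r + Ω * om ^ 2 / 2 = Vr Ω (r + 2 * (2 * omr ^ 2)) := by
    unfold Vr
    push_cast
    rw [two_coe, omr_coe]
    ring
  rw [Ks_neg hL, Ks_eq, e1, e2, e3]
  linear_combination p0 + p1 - p2 - p3

end pairs

/-! ### the four halves of a point -/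

section quad

lemma Vr_h1 (r : eis) : Vr Ω r + Ω / 2 = Vr Ω (r + 2 * 2) := by
  unfold Vr
  push_cast
  rw [two_coe]
  ring

lemma Vr_h2 (r : eis) : Vr Ω r + om * (Ω / 2) = Vr Ω (r + 2 * (2 * omr)) := by
  unfold Vr
  push_cast
  rw [two_coe, omr_coe]
  ring

lemma Vr_h3 (r : eis) : Vr Ω r + om ^ 2 * (Ω / 2) = Vr Ω (r + 2 * (2 * omr ^ 2)) := by
  unfold Vr
  push_cast
  rw [two_coe, omr_coe]
  ring

/-- the values at the translates -/
lemma quad1 (hC : Cur L Ω) {r : eis} (hr : IsCoprime (2 : eis) r) :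
    ℘[L] (Vr Ω r) - ℘[L] (Ω / 2) ≠ 0 ∧
      (℘[L] (Vr Ω (r + 2 * 2)) - ℘[L] (Ω / 2)) * (℘[L] (Vr Ω r) - ℘[L] (Ω / 2)) =
        3 * ℘[L] (Ω / 2) ^ 2 := by
  have hL := hC.lat
  have := wp_half2 hC (half_notMem hL) (by
    have := Om_mem hL 1
    convert this using 1
    push_cast
    ring) (Vr_two hL hr) (e_cube hC)
  rwa [Vr_h1] at this

lemma quad2 (hC : Cur L Ω) {r : eis} (hr : IsCoprime (2 : eis) r) :
    ℘[L] (Vr Ω r) - om * ℘[L] (Ω / 2) ≠ 0 ∧
      (℘[L] (Vr Ω (r + 2 * (2 * omr))) - om * ℘[L] (Ω / 2)) *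
        (℘[L] (Vr Ω r) - om * ℘[L] (Ω / 2)) = 3 * om ^ 2 * ℘[L] (Ω / 2) ^ 2 := by
  have hL := hC.lat
  have hu := omr_unit
  have e1 : ℘[L] (om * (Ω / 2)) = om * ℘[L] (Ω / 2) := by
    have := wp_unit hL hu (Ω / 2)
    rw [omr_coe] at this
    have h4 : (om ^ 2)⁻¹ = om := inv_eq_of_mul_eq_one_right (by linear_combination om_cube)
    rw [this, h4]
  have n1 : om * (Ω / 2) ∉ L.lattice := by
    have := (lat_unit hL hu (Ω / 2)).not.2 (half_notMem hL)
    rwa [omr_coe] at this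
  have := wp_half2 hC n1 (by
    have := Om_mem hL omr
    rw [omr_coe] at this
    convert this using 1
    ring) (Vr_two hL hr) (by
      rw [e1]
      linear_combination (4 * ℘[L] (Ω / 2) ^ 3) * om_cube + e_cube hC)
  rw [Vr_h2, e1] at this
  refine ⟨this.1, ?_⟩
  rw [this.2]
  ring

lemma quad3 (hC : Cur L Ω) {r : eis} (hr : IsCoprime (2 : eis) r) :
    ℘[L] (Vr Ω r) - om ^ 2 * ℘[L] (Ω / 2) ≠ 0 ∧
      (℘[L] (Vr Ω (r + 2 * (2 * omr ^ 2))) - om ^ 2 * ℘[L] (Ω / 2)) *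
        (℘[L] (Vr Ω r) - om ^ 2 * ℘[L] (Ω / 2)) = 3 * om * ℘[L] (Ω / 2) ^ 2 := by
  have hL := hC.lat
  have hu := omr_unit.pow 2
  have e1 : ℘[L] (om ^ 2 * (Ω / 2)) = om ^ 2 * ℘[L] (Ω / 2) := by
    have := wp_unit hL hu (Ω / 2)
    push_cast at this
    rw [omr_coe] at this
    have h4 : ((om ^ 2) ^ 2)⁻¹ = om ^ 2 :=
      inv_eq_of_mul_eq_one_right (by linear_combination (om ^ 3 + 1) * om_cube)
    rw [this, h4]
  have n1 : om ^ 2 * (Ω / 2) ∉ L.lattice := by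
    have := (lat_unit hL hu (Ω / 2)).not.2 (half_notMem hL)
    push_cast at this
    rwa [omr_coe] at this
  have := wp_half2 hC n1 (by
    have := Om_mem hL (omr ^ 2)
    push_cast at this
    rw [omr_coe] at this
    convert this using 1
    ring) (Vr_two hL hr) (by
      rw [e1]
      linear_combination (4 * ℘[L] (Ω / 2) ^ 3 * (om ^ 3 + 1)) * om_cube + e_cube hC)
  rw [Vr_h3, e1] at this
  refine ⟨this.1, ?_⟩
  rw [this.2]
  linear_combination (3 * ℘[L] (Ω / 2) ^ 2 * om) * om_cube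

/-- the two sums -/
lemma quad (hC : Cur L Ω) {r : eis} (hr : IsCoprime (2 : eis) r) {a a' b b' e : ℂ}
    (ha : a = ℘[L] (Vr Ω r)) (ha' : a' = ℘[L] (Vr Ω (r + 2 * 2)))
    (hb : b = ℘[L] (Vr Ω (r + 2 * (2 * omr)))) (hb' : b' = ℘[L] (Vr Ω (r + 2 * (2 * omr ^ 2))))
    (he : e = ℘[L] (Ω / 2)) :
    a * a' = 2 * e ^ 2 + e * (a + a') ∧ b * b' = 2 * e ^ 2 + e * (b + b') ∧
      (b + b') * (a + a' + e) = -e * (4 * e + (a + a')) ∧
      a + a' + b + b' = 4 * ℘[L] (2 * Vr Ω r) := by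
  have hL := hC.lat
  have q1 := quad1 hC hr
  have q2 := quad2 hC hr
  have q3 := quad3 hC hr
  have q4 := quad1 hC (cop_add (s := 2 * omr) hr)
  have e4 : ℘[L] (Vr Ω (r + 2 * (2 * omr) + 2 * 2)) = b' := by
    rw [hb']
    apply wp_per
    have := Om_mem hL (1 + omr)
    push_cast at this
    rw [omr_coe] at this
    convert this using 1
    unfold Vr
    push_cast
    rw [two_coe, omr_coe]
    linear_combination (-Ω / 2) * om_sq
  rw [e4, ← hb] at q4
  have hdup := hC.dup (Vr_two hL hr)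
  have hcube := e_cube hC
  rw [← ha, ← ha', ← he] at q1
  rw [← ha, ← hb, ← he] at q2
  rw [← ha, ← hb', ← he] at q3
  rw [← he] at q4
  rw [← ha] at hdup
  rw [← he] at hcube
  obtain ⟨n1, q1⟩ := q1
  obtain ⟨n2, q2⟩ := q2
  obtain ⟨n3, q3⟩ := q3
  obtain ⟨n4, q4⟩ := q4
  set X := ℘[L] (2 * Vr Ω r)
  have hD : (a - e) * (a - om * e) * (a - om ^ 2 * e) = a ^ 3 - e ^ 3 := by
    linear_combination (-e * a ^ 2 + om * e ^ 2 * a - (om - 1) * e ^ 3) * om_sq
  have n5 : 4 * a ^ 3 + 1 ≠ 0 := by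
    have : 4 * a ^ 3 + 1 = 4 * (a ^ 3 - e ^ 3) := by linear_combination hcube
    rw [this, ← hD]
    exact mul_ne_zero (by norm_num) (mul_ne_zero (mul_ne_zero n1 n2) n3)
  have n6 : a ^ 2 + a * e + e ^ 2 ≠ 0 := by
    have : a ^ 2 + a * e + e ^ 2 = (a - om * e) * (a - om ^ 2 * e) := by
      linear_combination (a * e) * om_sq - e ^ 2 * om_cube
    rw [this]
    exact mul_ne_zero n2 n3
  have k : (b + b' + e) * (a ^ 2 + a * e + e ^ 2) = 3 * e ^ 2 * (e - a) := by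
    linear_combination (a - om ^ 2 * e) * q2 + (a - om * e) * q3 + (1*om^3*e^3 + (-1)*om^2*a*e^2 + (-3)*om^2*e^3 + (-1)*om*a*e^2 + (-1)*om*b*e^2 + (-1)*om*b'*e^2 + 2*om*e^3 + 1*a^2*e + 1*a*b*e + 1*a*b'*e + 4*a*e^2 + 1*b*e^2 + 1*b'*e^2 + (-2)*e^3) * om_sq
  refine ⟨by linear_combination q1, by linear_combination q4, ?_, ?_⟩
  · have h : ((b + b') * (a + a' + e) + e * (4 * e + (a + a'))) * (a - e) = 0 := by
      linear_combination k + (b + b' + e) * q1
    rcases mul_eq_zero.1 h with h | h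
    · linear_combination h
    · exact absurd h n1
  · have h : ((a + a' + b + b') - 4 * X) * ((a - e) * (a ^ 2 + a * e + e ^ 2)) = 0 := by
      linear_combination (a ^ 2 + a * e + e ^ 2) * q1 + (a - e) * k - hdup +
        (2 * a + X) * hcube
    rcases mul_eq_zero.1 h with h | h
    · linear_combination h
    · exact absurd h (mul_ne_zero n1 n6)

end quad

end Pool.Agent.L0h86.F5
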