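import Pool.Agent.L0h86.F5.E1
import Pool.Agent.L0h75.F5.E2
import Pool.Agent.L0h75.F5.E3

/-!
# The closed form of the averages
-/

set_option autoImplicit false
set_option linter.unusedSectionVars false

open Filter
open scoped Topology PeriodPair

namespace Pool.Agent.L0h86.F5

open H667R3 Pool.Agent.W192.HK Pool.Agent.TH936.CM
open Pool.Agent.TH936.PU hiding pf
open Pool.Agent.Y696 Pool.Agent.Y715.T.Lat
open Pool.Agent.Y715.T.Three (lam lam_ne' lam_sq)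
open Pool.Agent.L0h86.F3 Pool.Agent.L0h4.T4
open Pool.Agent.L0h75.F5 (ff E2a E2b E3)

variable {L : PeriodPair} {Ω : ℂ}

/-- the sum of two terms -/
lemma phi_sum {x a a' e r g : ℂ} (he : 4 * e ^ 3 = -1) (hs : a + a' = e * ((1 + r) * (2 + g)))
    (hp : a * a' = 2 * e ^ 2 + e * (a + a')) (h1 : x ^ 3 - a ^ 3 ≠ 0) (h2 : x ^ 3 - a' ^ 3 ≠ 0) :
    phi x a + phi x a' = e ^ 2 * ff (x ^ 3) r g := by
  set C := x ^ 3 with hC
  set σ := (1 + r) * (2 + g) with hσ
  rw [hs] at hp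
  have hn : a ^ 2 * (C - a' ^ 3) + a' ^ 2 * (C - a ^ 3) =
      e ^ 2 * (C * (σ ^ 2 - 2 * σ - 4) + σ * (2 + σ) ^ 2 / 4) := by
    have e1 : a ^ 2 * (C - a' ^ 3) + a' ^ 2 * (C - a ^ 3) =
        C * ((a + a') ^ 2 - 2 * (a * a')) - (a * a') ^ 2 * (a + a') := by ring
    rw [e1, hs, hp]
    linear_combination (-e ^ 2 * (2 + σ) ^ 2 * σ / 4) * he
  have hd : (C - a ^ 3) * (C - a' ^ 3) =
      C ^ 2 + C * (σ ^ 3 - 3 * σ ^ 2 - 6 * σ) / 4 + (2 + σ) ^ 3 / 16 := by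
    have e1 : (C - a ^ 3) * (C - a' ^ 3) =
        C ^ 2 - C * ((a + a') ^ 3 - 3 * (a * a') * (a + a')) + (a * a') ^ 3 := by ring
    rw [e1, hs, hp]
    linear_combination (-C * (σ ^ 3 - 3 * σ ^ 2 - 6 * σ) / 4 +
      (2 + σ) ^ 3 * (4 * e ^ 3 - 1) / 16) * he
  have hff : ff C r g = (C * (σ ^ 2 - 2 * σ - 4) + σ * (2 + σ) ^ 2 / 4) /
      (C ^ 2 + C * (σ ^ 3 - 3 * σ ^ 2 - 6 * σ) / 4 + (2 + σ) ^ 3 / 16) := rfl
  unfold phi
  rw [← hC, hff, ← hd, ← mul_div_assoc, ← hn]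
  field_simp

/-- the point `T` -/
noncomputable def r0 : eis := la ^ 3

/-- the point `T + Ω ω / 4` -/
noncomputable def r1 : eis := la ^ 3 + 2 * omr

lemma r0_cop : IsCoprime (2 : eis) r0 := la_odd.pow_right

lemma r1_cop : IsCoprime (2 : eis) r1 := by
  unfold r1
  exact cop_add la_odd.pow_right

lemma la_coe' : (la : ℂ) = 1 + 2 * om := by rw [la_coe, lam_eq]

lemma r0_coe : (r0 : ℂ) = -3 - 6 * om := by
  unfold r0
  push_cast
  rw [la_coe']
  linear_combination (8 * om + 4) * om_sq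

lemma Vr_per (hL : IsLat L eis Ω) {r s : eis} (t : eis) (h : (r : ℂ) - s = 8 * t) :
    ℘[L] (Vr Ω r) = ℘[L] (Vr Ω s) := by
  apply wp_per
  have := hL.mem_mul t
  convert this using 1
  unfold Vr
  linear_combination (Ω / 8) * h

set_option maxHeartbeats 1000000 in
/-- **the algebraic data of the point of order eight** -/
theorem data8 (hC : Cur L Ω) : ∃ r g : ℂ, r ^ 2 = 3 ∧ g ^ 2 = 6 ∧
    ℘[L] (Vr Ω r0) + ℘[L] (Vr Ω (r0 + 2 * 2)) = ℘[L] (Ω / 2) * ((1 + r) * (2 + g)) ∧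
    ℘[L] (Vr Ω (r0 + 2 * (2 * omr))) + ℘[L] (Vr Ω (r0 + 2 * (2 * omr ^ 2))) =
      ℘[L] (Ω / 2) * ((1 + r) * (2 + -g)) ∧
    ℘[L] (Vr Ω r1) + ℘[L] (Vr Ω (r1 + 2 * 2)) = ℘[L] (Ω / 2) * ((1 + -r) * (2 + -g)) ∧
    ℘[L] (Vr Ω (r1 + 2 * (2 * omr))) + ℘[L] (Vr Ω (r1 + 2 * (2 * omr ^ 2))) =
      ℘[L] (Ω / 2) * ((1 + -r) * (2 + g)) := by
  have hL := hC.lat
  have he0 := e_ne hC
  have he := e_cube hC
  obtain ⟨-, -, q3, q4⟩ := quad hC r0_cop rfl rfl rfl rfl rfl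
  obtain ⟨q1, -, -, -⟩ := quad hC r0_cop rfl rfl rfl rfl rfl
  -- the value at `2 T`
  have hx2 : (℘[L] (2 * Vr Ω r0) - ℘[L] (Ω / 2)) ^ 2 = 3 * ℘[L] (Ω / 2) ^ 2 := by
    have h4 : 2 * (2 * Vr Ω r0) ∉ L.lattice := by
      have := nm2 hL r0_cop
      convert this using 2
      unfold Vr
      ring
    have h5 := (wp_half2 hC (half_notMem hL) (by
      have := Om_mem hL 1
      convert this using 1
      push_cast
      ring) h4 he).2
    have h6 : ℘[L] (2 * Vr Ω r0 + Ω / 2) = ℘[L] (2 * Vr Ω r0) := by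
      rw [← L.weierstrassP_neg (2 * Vr Ω r0)]
      apply wp_per
      have := hL.mem_mul (-1 - 3 * omr)
      convert this using 1
      unfold Vr
      push_cast
      rw [omr_coe, r0_coe]
      have c3 : ((3 : eis) : ℂ) = 3 := rfl
      rw [c3]
      ring
    rw [h6] at h5
    linear_combination h5
  set e := ℘[L] (Ω / 2) with hed
  set X := ℘[L] (2 * Vr Ω r0) with hX
  set a := ℘[L] (Vr Ω r0) with had
  set a' := ℘[L] (Vr Ω (r0 + 2 * 2)) with had'
  set b := ℘[L] (Vr Ω (r0 + 2 * (2 * omr))) with hbd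
  set b' := ℘[L] (Vr Ω (r0 + 2 * (2 * omr ^ 2))) with hbd'
  have hX0 : X ≠ 0 := by
    intro h
    rw [h] at hx2
    have : e ^ 2 = 0 := by linear_combination (-1 / 2) * hx2
    exact he0 (pow_eq_zero_iff two_ne_zero |>.1 this)
  set r := X / e - 1 with hr
  set g := (a + a') / X - 2 with hg
  have hXr : X = e * (1 + r) := by
    rw [hr]
    field_simp
    ring
  have hs : a + a' = e * ((1 + r) * (2 + g)) := by
    rw [← mul_assoc, ← hXr, hg]
    field_simp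
    ring
  have hr2 : r ^ 2 = 3 := by
    have h1 : e ^ 2 * (r ^ 2 - 3) = 0 := by
      rw [hXr] at hx2
      linear_combination hx2
    rcases mul_eq_zero.1 h1 with h2 | h2
    · exact absurd h2 (pow_ne_zero 2 he0)
    · linear_combination h2
  have hs2 : b + b' = e * ((1 + r) * (2 + -g)) := by
    rw [hXr] at q4
    linear_combination q4 - hs
  have hr3 : 4 + 2 * r ≠ 0 := by
    intro h
    have h1 : r = -2 := by linear_combination h / 2
    rw [h1] at hr2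
    norm_num at hr2
  have hg2 : g ^ 2 = 6 := by
    have h1 : (e ^ 2 * (4 + 2 * r)) * (g ^ 2 - 6) = 0 := by
      rw [hs, hs2] at q3
      linear_combination -q3 + (e ^ 2 * (4 - g ^ 2)) * hr2
    rcases mul_eq_zero.1 h1 with h2 | h2
    · exact absurd h2 (mul_ne_zero (pow_ne_zero 2 he0) hr3)
    · linear_combination h2
  refine ⟨r, g, hr2, hg2, hs, hs2, ?_⟩
  -- the point `Ω / 8`
  have c1 : IsCoprime (2 : eis) 1 := isCoprime_one_right
  obtain ⟨-, -, t3, t4⟩ := quad hC c1 rfl rfl rfl rfl rfl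
  have m1 : ℘[L] (Vr Ω r1) = ℘[L] (Vr Ω (1 + 2 * (2 * omr ^ 2))) := by
    apply Vr_per hL 0
    unfold r1
    push_cast
    rw [two_coe, omr_coe, la_coe']
    linear_combination (8 * om) * om_sq
  have m2 : ℘[L] (Vr Ω (r1 + 2 * 2)) = ℘[L] (Vr Ω (1 + 2 * (2 * omr))) := by
    apply Vr_per hL (-omr)
    unfold r1
    push_cast
    rw [two_coe, omr_coe, la_coe']
    linear_combination (8 * om + 4) * om_sq
  have m3 : ℘[L] (Vr Ω (r1 + 2 * (2 * omr))) = ℘[L] (Vr Ω (1 + 2 * 2)) := by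
    apply Vr_per hL (-1)
    unfold r1
    push_cast
    rw [two_coe, omr_coe, la_coe']
    linear_combination (8 * om + 4) * om_sq
  have m4 : ℘[L] (Vr Ω (r1 + 2 * (2 * omr ^ 2))) = ℘[L] (Vr Ω 1) := by
    apply Vr_per hL (omr ^ 2)
    unfold r1
    push_cast
    rw [two_coe, omr_coe, la_coe']
    linear_combination (8 * om) * om_sq
  -- multiplication by `√-3`
  have l1 : ℘[L] (Vr Ω 1) = ℘[L] ((la : ℂ) * Vr Ω r0) := by
    symm
    apply wp_per
    have := hL.mem_mul 1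
    convert this using 1
    unfold Vr
    push_cast
    rw [r0_coe, la_coe']
    linear_combination (-3 * Ω / 2) * om_sq
  have l2 : ℘[L] (Vr Ω (1 + 2 * 2)) = ℘[L] ((la : ℂ) * Vr Ω (r0 + 2 * 2)) := by
    symm
    apply wp_per
    have := hL.mem_mul (1 + omr)
    convert this using 1
    unfold Vr
    push_cast
    rw [two_coe, r0_coe, la_coe', omr_coe]
    linear_combination (-3 * Ω / 2) * om_sq
  have nl1 : (la : ℂ) * Vr Ω r0 ∉ L.lattice := by
    have := Vr_nm hL (la_odd.mul_right r0_cop)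
    convert this using 2
    unfold Vr
    push_cast
    ring
  have nl2 : (la : ℂ) * Vr Ω (r0 + 2 * 2) ∉ L.lattice := by
    have := Vr_nm hL (la_odd.mul_right (cop_add (s := 2) r0_cop))
    convert this using 2
    unfold Vr
    push_cast
    ring
  obtain ⟨na, w1⟩ := wp_la hC (Vr_two hL r0_cop) nl1
  obtain ⟨na', w2⟩ := wp_la hC (Vr_two hL (cop_add (s := 2) r0_cop)) nl2
  rw [← l1, ← had] at w1
  rw [← l2, ← had'] at w2
  rw [← had] at na
  rw [← had'] at na'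
  rw [m1, m2, m3, m4]
  set A := ℘[L] (Vr Ω 1)
  set A' := ℘[L] (Vr Ω (1 + 2 * 2))
  set B := ℘[L] (Vr Ω (1 + 2 * (2 * omr)))
  set B' := ℘[L] (Vr Ω (1 + 2 * (2 * omr ^ 2)))
  have hAA : A + A' = e * ((1 + -r) * (2 + g)) := by
    have h1 : 3 * (a * a') ^ 2 * (A + A') =
        -((a * a') ^ 2 * (a + a') + ((a + a') ^ 2 - 2 * (a * a'))) := by
      linear_combination a' ^ 2 * w1 + a ^ 2 * w2
    have h2 : 3 * (a * a') ^ 2 * (e * ((1 + -r) * (2 + g))) =
        -((a * a') ^ 2 * (a + a') + ((a + a') ^ 2 - 2 * (a * a'))) := by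
      rw [q1, hs]
      linear_combination (e ^ 2 * ((2 + (1 + r) * (2 + g)) ^ 2 *
        (3 * ((1 - r) * (2 + g)) + (1 + r) * (2 + g))) / 4) * he -
        e ^ 2 * ((-1/2)*r*g^3 + (-3)*r*g^2 + (-6)*r*g + (-4)*r + (-3)*g^2 + (-12)*g + (-12)) * hr2 -
        e ^ 2 * g * hg2
    have h3 : 3 * (a * a') ^ 2 ≠ 0 := mul_ne_zero three_ne_zero (pow_ne_zero 2 (mul_ne_zero na na'))
    exact mul_left_cancel₀ h3 (h1.trans h2.symm)
  have hBB : B + B' = e * ((1 + -r) * (2 + -g)) := by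
    have h1 : A + A' + e ≠ 0 := by
      intro h
      rw [h, mul_zero] at t3
      have h2 : A + A' = -e := by linear_combination h
      rw [h2] at t3
      have h3 : e ^ 2 = 0 := by linear_combination t3 / 3
      exact he0 (pow_eq_zero_iff two_ne_zero |>.1 h3)
    apply mul_right_cancel₀ h1
    rw [t3, hAA]
    linear_combination (-e ^ 2 * (4 - g ^ 2)) * hr2 + (e ^ 2 * (4 - 2 * r)) * hg2
  exact ⟨by linear_combination hBB, by linear_combination hAA⟩

end Pool.Agent.L0h86.F5
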